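import Pool.Agent.helper68.AM.SpecX

/-!
Project sl: modules XA3 and XA4 (MP_d52931_gt): the number of indices of weight
`g (2 lx + ly)` and `g max (lx, ly)`.
-/

set_option autoImplicit false

namespace AM

open Pool.Agent.helper72.Sq Matrix

lemma XA3_desc_append : ∀ (w v : List Bool) (P : Tri), desc (w ++ v) P = desc v (desc w P)
  | [], _, _ => rfl
  | true :: w, v, P => XA3_desc_append w v (Lm P)
  | false :: w, v, P => XA3_desc_append w v (Rm P)

/-- counting through a map all of whose fibres, up to finitely many, have `m` elements -/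
lemma XA3_fib {α β : Type*} [DecidableEq β] (π : α → β) (m : ℕ) (E : Finset β)
    (hfin : ∀ b, {a | π a = b}.Finite) (hE : ∀ b, b ∉ E → {a | π a = b}.ncard = m) :
    ∃ K0 : ℝ, 0 ≤ K0 ∧ ∀ A : Set β, A.Finite → {a | π a ∈ A}.Finite ∧
      |(({a | π a ∈ A}.ncard : ℝ)) - m * (A.ncard : ℝ)| ≤ K0 := by
  classical
  refine ⟨∑ b ∈ E, (({a | π a = b}.ncard : ℝ) + m),
    Finset.sum_nonneg fun b _ => by positivity, fun A hA => ?_⟩
  have hunion : {a | π a ∈ A} = ⋃ b ∈ A, {a | π a = b} := by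
    ext a; simp
  have hfinA : {a | π a ∈ A}.Finite := by
    rw [hunion]; exact hA.biUnion fun b _ => hfin b
  refine ⟨hfinA, ?_⟩
  have hcount : ∀ S : Finset β, (({a | π a ∈ (S : Set β)}.ncard : ℝ)) =
      ∑ b ∈ S, (({a | π a = b}.ncard : ℝ)) := by
    intro S
    induction S using Finset.induction_on with
    | empty => simp
    | insert b S hb ih =>
      rw [Finset.sum_insert hb, ← ih]
      have e1 : {a | π a ∈ ((insert b S : Finset β) : Set β)} =
          {a | π a = b} ∪ {a | π a ∈ (S : Set β)} := by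
        ext a; simp
      have hS : {a | π a ∈ (S : Set β)}.Finite := by
        have : {a | π a ∈ (S : Set β)} = ⋃ b ∈ (S : Set β), {a | π a = b} := by
          ext a; simp
        rw [this]; exact S.finite_toSet.biUnion fun b _ => hfin b
      rw [e1, Set.ncard_union_eq ?_ (hfin b) hS]
      · push_cast; ring
      · rw [Set.disjoint_left]
        intro a ha ha'
        simp only [Set.mem_ofPred_eq, Finset.mem_coe] at ha ha'
        rw [ha] at ha'
        exact hb ha'
  have hAeq : A = ((hA.toFinset : Finset β) : Set β) := by simp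
  have h1 := hcount hA.toFinset
  rw [← hAeq] at h1
  have h2 : (A.ncard : ℝ) = ∑ b ∈ hA.toFinset, (1 : ℝ) := by
    rw [Set.ncard_eq_toFinset_card A hA]; simp
  rw [h1, h2, Finset.mul_sum, ← Finset.sum_sub_distrib]
  refine (Finset.abs_sum_le_sum_abs _ _).trans ?_
  calc ∑ b ∈ hA.toFinset, |(({a | π a = b}.ncard : ℝ)) - m * 1|
      ≤ ∑ b ∈ hA.toFinset, (if b ∈ E then (({a | π a = b}.ncard : ℝ) + m) else 0) := by
        refine Finset.sum_le_sum fun b _ => ?_
        split_ifs with h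
        · rw [mul_one]
          refine (abs_sub _ _).trans (le_of_eq ?_)
          rw [abs_of_nonneg (Nat.cast_nonneg _), abs_of_nonneg (Nat.cast_nonneg _)]
        · rw [hE b h]; simp
    _ = ∑ b ∈ hA.toFinset.filter (· ∈ E), (({a | π a = b}.ncard : ℝ) + m) := by
        rw [Finset.sum_filter]
    _ ≤ ∑ b ∈ E, (({a | π a = b}.ncard : ℝ) + m) := by
        refine Finset.sum_le_sum_of_subset_of_nonneg ?_ fun b _ _ => by positivity
        intro b hb
        exact (Finset.mem_filter.1 hb).2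

/-- the trace triple of a cone -/
noncomputable def XA3_P (P : Tri) (ε : Bool) : Tri := if ε then P else Tw P

/-- the nodes whose mediant has length at most `R` -/
noncomputable def XA3_A (P : Tri) (R : ℝ) : Set (Bool × List Bool) :=
  {b | len (desc b.2 (XA3_P P b.1)).2.2 ≤ R}

lemma XA3_ncard (P : Tri) (R : ℝ) (h1 : {w : List Bool | len (desc w P).2.2 ≤ R}.Finite)
    (h2 : {w : List Bool | len (desc w (Tw P)).2.2 ≤ R}.Finite) :
    (XA3_A P R).Finite ∧ (XA3_A P R).ncard =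
      {w : List Bool | len (desc w P).2.2 ≤ R}.ncard +
      {w : List Bool | len (desc w (Tw P)).2.2 ≤ R}.ncard := by
  have e : XA3_A P R = (fun w => ((true, w) : Bool × List Bool)) ''
      {w : List Bool | len (desc w P).2.2 ≤ R} ∪ (fun w => ((false, w) : Bool × List Bool)) ''
      {w : List Bool | len (desc w (Tw P)).2.2 ≤ R} := by
    ext ⟨ε, w⟩
    cases ε <;> simp [XA3_A, XA3_P]
  have f1 := h1.image (fun w => ((true, w) : Bool × List Bool))
  have f2 := h2.image (fun w => ((false, w) : Bool × List Bool))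
  rw [e]
  refine ⟨f1.union f2, ?_⟩
  rw [Set.ncard_union_eq ?_ f1 f2]
  · rw [Set.ncard_image_of_injective _ (fun a b h => by simpa using h),
      Set.ncard_image_of_injective _ (fun a b h => by simpa using h)]
  · rw [Set.disjoint_left]
    rintro _ ⟨a, _, rfl⟩ ⟨b, _, h⟩
    simp at h

lemma XA3_base (hZ : XZ_stmt) (hT : TOT_stmt) (P : Tri) (hP : Adm P) (g : ℝ) (hg : 0 < g) :
    (∀ R, (XA3_A P (R / g)).Finite) ∧ ∃ b K : ℝ, 0 < b ∧ ∀ R : ℝ, 1 ≤ R →
      |(((XA3_A P (R / g)).ncard : ℝ)) - b * R ^ 2| ≤ K * R := by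
  obtain ⟨hf1, hf2, b, K, hb, hK, hbK⟩ := hT P hP
  have hz1 := fun R => hZ P R (hf1 R)
  have hz2 := fun R => hZ (Tw P) R (hf2 R)
  have hA := fun R => XA3_ncard P R (hz1 R).1 (hz2 R).1
  refine ⟨fun R => (hA _).1, b / g ^ 2, K / g + 2 + (XA3_A P 1).ncard + b, by positivity,
    fun R hR => ?_⟩
  have hR0 : 0 < R := by linarith
  rcases le_or_gt g R with hgR | hgR
  · have h1 : 1 ≤ R / g := (one_le_div hg).2 hgR
    have h2 := hbK _ h1
    have h3 := (hz1 (R / g)).2
    have h4 := (hz2 (R / g)).2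
    rw [(hA _).2]
    push_cast
    have e1 : b / g ^ 2 * R ^ 2 = b * (R / g) ^ 2 := by field_simp
    have e2 : K / g * R = K * (R / g) := by ring
    rw [e1]
    have hn : (0 : ℝ) ≤ (XA3_A P 1).ncard := Nat.cast_nonneg _
    have e3 : K * (R / g) + 2 ≤ (K / g + 2 + (XA3_A P 1).ncard + b) * R := by
      nlinarith [mul_nonneg hn hR0.le, mul_nonneg hb.le hR0.le]
    refine le_trans ?_ e3
    rw [abs_le] at h2 h3 h4 ⊢
    constructor <;> linarith [h2.1, h2.2, h3.1, h3.2, h4.1, h4.2]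
  · have h1 : R / g ≤ 1 := ((div_lt_one hg).2 hgR).le
    have h0 : 0 ≤ R / g := by positivity
    have hsub : XA3_A P (R / g) ⊆ XA3_A P 1 := fun x hx => le_trans hx h1
    have h2 : (((XA3_A P (R / g)).ncard : ℝ)) ≤ (XA3_A P 1).ncard := by
      exact_mod_cast Set.ncard_le_ncard hsub (hA 1).1
    have hn : (0 : ℝ) ≤ (XA3_A P (R / g)).ncard := Nat.cast_nonneg _
    have e1 : b / g ^ 2 * R ^ 2 = b * (R / g) ^ 2 := by field_simp
    rw [e1]
    have h3 : b * (R / g) ^ 2 ≤ b := by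
      have : (R / g) ^ 2 ≤ 1 := by nlinarith
      nlinarith
    have h4 : 0 ≤ b * (R / g) ^ 2 := by positivity
    have h5 : 0 ≤ K / g := by positivity
    have e3 : ((XA3_A P 1).ncard : ℝ) + b ≤ (K / g + 2 + (XA3_A P 1).ncard + b) * R := by
      have hn' : (0 : ℝ) ≤ (XA3_A P 1).ncard := Nat.cast_nonneg _
      nlinarith [mul_nonneg hn' (sub_nonneg.2 hR), mul_nonneg hb.le (sub_nonneg.2 hR),
        mul_nonneg h5 hR0.le]
    refine le_trans ?_ e3
    rw [abs_le]
    constructor <;> linarith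

/-- growth of a weight which factors through a map to the nodes -/
lemma XA3_GW (hZ : XZ_stmt) (hT : TOT_stmt) (P : Tri) (hP : Adm P) (g : ℝ) (hg : 0 < g)
    (π : Ix → Bool × List Bool) (m : ℕ) (hm : 1 ≤ m) (E : Finset (Bool × List Bool))
    (hfin : ∀ b, {a | π a = b}.Finite) (hE : ∀ b, b ∉ E → {a | π a = b}.ncard = m) :
    GW (fun i => g * len (desc (π i).2 (XA3_P P (π i).1)).2.2) := by
  obtain ⟨K0, hK0, hK⟩ := XA3_fib π m E hfin hE
  obtain ⟨hA, b, K, hb, hbK⟩ := XA3_base hZ hT P hP g hg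
  have hset : ∀ R, {i : Ix | g * len (desc (π i).2 (XA3_P P (π i).1)).2.2 ≤ R} =
      {i | π i ∈ XA3_A P (R / g)} := by
    intro R
    ext i
    simp only [Set.mem_ofPred_eq, XA3_A]
    rw [le_div_iff₀ hg, mul_comm]
  refine ⟨fun R => by rw [hset]; exact (hK _ (hA R)).1, m * b, K0 + m * K, ?_, fun R hR => ?_⟩
  · have : (0 : ℝ) < m := by exact_mod_cast hm
    positivity
  · rw [hset]
    have h1 := (hK _ (hA R)).2
    have h2 := hbK R hR
    have hm0 : (0 : ℝ) ≤ m := Nat.cast_nonneg _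
    have h3 : |(m : ℝ) * ((XA3_A P (R / g)).ncard : ℝ) - m * b * R ^ 2| ≤ m * (K * R) := by
      have : (m : ℝ) * ((XA3_A P (R / g)).ncard : ℝ) - m * b * R ^ 2 =
        m * (((XA3_A P (R / g)).ncard : ℝ) - b * R ^ 2) := by ring
      rw [this, abs_mul, abs_of_nonneg hm0]
      exact mul_le_mul_of_nonneg_left h2 hm0
    have h4 : K0 ≤ K0 * R := by nlinarith
    rw [abs_le] at h1 h3 ⊢
    constructor <;> nlinarith [h1.1, h1.2, h3.1, h3.2]

/-- the exceptional nodes -/
def XA3_E : Finset (Bool × List Bool) := {(true, []), (false, [])}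

lemma XA3_notE {b : Bool × List Bool} (h : b ∉ XA3_E) : b.2 ≠ [] := by
  intro hb
  obtain ⟨ε, w⟩ := b
  simp only at hb
  subst hb
  cases ε <;> simp [XA3_E] at h

/-- the map of XA3 -/
def XA3_pi (i : Ix) : Bool × List Bool := (i.1, i.2.1 ++ [decide (i.2.2.val % 2 = 0)])

lemma XA3_fibre (b : Bool × List Bool) (hb : b.2 ≠ []) :
    {a | XA3_pi a = b} = (fun τ : Fin 4 => ((b.1, b.2.dropLast, τ) : Ix)) ''
      {τ : Fin 4 | decide (τ.val % 2 = 0) = b.2.getLast hb} := by
  obtain ⟨ε, w⟩ := b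
  simp only at hb
  ext ⟨ε', w', τ⟩
  simp only [XA3_pi, Set.mem_ofPred_eq, Set.mem_image, Prod.mk.injEq]
  constructor
  · rintro ⟨rfl, h⟩
    subst h
    refine ⟨τ, ?_, rfl, ?_, rfl⟩
    · simp
    · simp
  · rintro ⟨τ', h1, rfl, rfl, rfl⟩
    refine ⟨rfl, ?_⟩
    rw [h1]
    exact List.dropLast_append_getLast hb

lemma XA3_fibre_card (b : Bool × List Bool) (hb : b.2 ≠ []) : {a | XA3_pi a = b}.ncard = 2 := by
  rw [XA3_fibre b hb, Set.ncard_image_of_injective _ (fun a b h => by simpa using h)]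
  have key : ∀ s : Bool, {τ : Fin 4 | decide (τ.val % 2 = 0) = s}.ncard = 2 := by
    intro s
    rw [Set.ncard_eq_toFinset_card']
    cases s <;> rfl
  exact key _

lemma XA3_fibre_fin (b : Bool × List Bool) : {a | XA3_pi a = b}.Finite := by
  by_cases hb : b.2 = []
  · have : {a | XA3_pi a = b} = ∅ := by
      ext a
      simp only [Set.mem_ofPred_eq, Set.mem_empty_iff_false, iff_false]
      intro h
      rw [← h] at hb
      simp [XA3_pi] at hb
    rw [this]; exact Set.finite_empty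
  · rw [XA3_fibre b hb]
    exact (Set.toFinite _).image _

lemma XA3_cases (ε : Bool) {P : Tri} (hP : Adm P) : Adm (XA3_P P ε) := by
  cases ε
  · exact hP.Tw
  · exact hP

lemma XA3_XB (hB : XB_stmt) {P : Tri} (hP : Adm P) : ∃ C : ℝ, 0 ≤ C ∧ ∀ (ε : Bool) (w : List Bool),
    |len (desc w (XA3_P P ε)).1 + len (desc w (XA3_P P ε)).2.1 -
      len (desc w (XA3_P P ε)).2.2| ≤ C := by
  obtain ⟨C1, h1⟩ := hB P hP
  obtain ⟨C2, h2⟩ := hB (Tw P) hP.Tw
  refine ⟨max C1 C2, ?_, fun ε w => ?_⟩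
  · exact ((abs_nonneg _).trans (h1 [])).trans (le_max_left _ _)
  · cases ε
    · exact (h2 w).trans (le_max_right _ _)
    · exact (h1 w).trans (le_max_left _ _)

theorem XA3 (hZ : XZ_stmt) (hB : XB_stmt) (hI : XI_stmt) (hT : TOT_stmt) (hXP : XP_stmt) :
    XA3_stmt := by
  intro ρ hA g hg
  set P := trTri ρ (ga, gb) with hPdef
  obtain ⟨C, hC0, hC⟩ := XA3_XB hB hA
  have h1 := XA3_GW hZ hT P hA g hg XA3_pi 2 (by norm_num) XA3_E XA3_fibre_fin
    (fun b hb => XA3_fibre_card b (XA3_notE hb))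
  refine hXP _ _ (g * (2 * C)) h1 ?_
  rintro ⟨ε, w, τ⟩
  obtain ⟨hQ, he, ho⟩ := hI ρ hA ε w τ
  have hPe : (if ε then P else Tw P) = XA3_P P ε := rfl
  rw [← hPdef, hPe] at hQ he ho
  set Q := desc w (XA3_P P ε) with hQdef
  have hw := hC ε w
  rw [← hQdef] at hw
  have hgen : ∀ t : ℝ, |t| ≤ 2 * C → |g * t| ≤ g * (2 * C) := by
    intro t ht
    rw [abs_mul, abs_of_pos hg]
    exact mul_le_mul_of_nonneg_left ht hg.le
  rcases Nat.mod_two_eq_zero_or_one τ.val with h | h
  · obtain ⟨e1, e2⟩ := he h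
    have hc := hC ε (w ++ [true])
    rw [XA3_desc_append, ← hQdef] at hc
    have e3 : XA3_pi (ε, w, τ) = (ε, w ++ [true]) := by simp [XA3_pi, h]
    rw [e3]
    simp only
    rw [XA3_desc_append, ← hQdef, e1, e2, ← mul_sub]
    refine hgen _ ?_
    have hL : desc [true] Q = Lm Q := rfl
    rw [hL] at hc ⊢
    have hL1 : (Lm Q).1 = Q.1 := rfl
    have hL2 : (Lm Q).2.1 = Q.2.2 := rfl
    rw [hL1, hL2] at hc
    rw [abs_le] at hw hc ⊢
    constructor <;> linarith [hw.1, hw.2, hc.1, hc.2]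
  · obtain ⟨e1, e2⟩ := ho h
    have hc := hC ε (w ++ [false])
    rw [XA3_desc_append, ← hQdef] at hc
    have e3 : XA3_pi (ε, w, τ) = (ε, w ++ [false]) := by simp [XA3_pi, h]
    rw [e3]
    simp only
    rw [XA3_desc_append, ← hQdef, e1, e2, ← mul_sub]
    refine hgen _ ?_
    have hL : desc [false] Q = Rm Q := rfl
    rw [hL] at hc ⊢
    have hL1 : (Rm Q).1 = Q.2.2 := rfl
    have hL2 : (Rm Q).2.1 = Q.2.1 := rfl
    rw [hL1, hL2] at hc
    rw [abs_le] at hw hc ⊢
    constructor <;> linarith [hw.1, hw.2, hc.1, hc.2]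

/-- the map of XA4 -/
def XA4_pi (i : Ix) : Bool × List Bool := (i.1, i.2.1.dropLast)

lemma XA4_sub (b : Bool × List Bool) :
    {a | XA4_pi a = b} ⊆ (fun x : List Bool × Fin 4 => ((b.1, x.1, x.2) : Ix)) ''
      (({b.2 ++ [true], b.2 ++ [false], []} : Set (List Bool)) ×ˢ Set.univ) := by
  rintro ⟨ε, w, τ⟩ h
  simp only [XA4_pi, Set.mem_ofPred_eq] at h
  refine ⟨(w, τ), ⟨?_, Set.mem_univ _⟩, by rw [← h]⟩
  simp only [Set.mem_insert_iff, Set.mem_singleton_iff]
  by_cases hw : w = []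
  · exact Or.inr (Or.inr hw)
  · have hl := List.dropLast_append_getLast hw
    rw [← h]
    simp only
    cases hs : w.getLast hw
    · rw [hs] at hl
      exact Or.inr (Or.inl hl.symm)
    · rw [hs] at hl
      exact Or.inl hl.symm

lemma XA4_fibre_fin (b : Bool × List Bool) : {a | XA4_pi a = b}.Finite :=
  (((Set.toFinite _).prod Set.finite_univ).image _).subset (XA4_sub b)

lemma XA4_fibre (b : Bool × List Bool) (hb : b.2 ≠ []) :
    {a | XA4_pi a = b} = (fun x : Bool × Fin 4 => ((b.1, b.2 ++ [x.1], x.2) : Ix)) '' Set.univ := by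
  ext ⟨ε, w, τ⟩
  simp only [XA4_pi, Set.mem_ofPred_eq, Set.mem_image, Set.mem_univ, true_and, Prod.exists,
    Prod.mk.injEq]
  constructor
  · intro h
    have hw : w ≠ [] := by
      rintro rfl
      rw [← h] at hb
      simp at hb
    refine ⟨w.getLast hw, τ, by rw [← h], ?_, rfl⟩
    rw [← h]
    exact List.dropLast_append_getLast hw
  · rintro ⟨s, τ', h1, rfl, rfl⟩
    rw [← h1]
    simp

lemma XA4_fibre_card (b : Bool × List Bool) (hb : b.2 ≠ []) : {a | XA4_pi a = b}.ncard = 8 := by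
  rw [XA4_fibre b hb, Set.ncard_image_of_injective]
  · rw [Set.ncard_univ]; simp
  · rintro ⟨s, τ⟩ ⟨s', τ'⟩ h
    simpa using h

theorem XA4 (hZ : XZ_stmt) (hB : XB_stmt) (hI : XI_stmt) (hT : TOT_stmt) (hXP : XP_stmt) :
    XA4_stmt := by
  intro ρ hA g hg
  set P := trTri ρ (ga, gb) with hPdef
  obtain ⟨C, hC0, hC⟩ := XA3_XB hB hA
  have h1 := XA3_GW hZ hT P hA g hg XA4_pi 8 (by norm_num) XA3_E XA4_fibre_fin
    (fun b hb => XA4_fibre_card b (XA3_notE hb))
  set D : ℝ := |max (len P.1) (len P.2.1) - len P.2.2| +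
    |max (len (Tw P).1) (len (Tw P).2.1) - len (Tw P).2.2| with hD
  have hD0 : 0 ≤ D := by positivity
  refine hXP _ _ (g * (C + D)) h1 ?_
  rintro ⟨ε, w, τ⟩
  obtain ⟨hQ, he, ho⟩ := hI ρ hA ε w τ
  have hPe : (if ε then P else Tw P) = XA3_P P ε := rfl
  rw [← hPdef, hPe] at hQ he ho
  have hmax : max (lx ρ (ε, w, τ)) (ly ρ (ε, w, τ)) =
      max (len (desc w (XA3_P P ε)).1) (len (desc w (XA3_P P ε)).2.1) := by
    rcases Nat.mod_two_eq_zero_or_one τ.val with h | h
    · obtain ⟨e1, e2⟩ := he h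
      rw [e1, e2]
    · obtain ⟨e1, e2⟩ := ho h
      rw [e1, e2, max_comm]
  simp only [XA4_pi]
  rw [hmax, ← mul_sub, abs_mul, abs_of_pos hg]
  refine mul_le_mul_of_nonneg_left ?_ hg.le
  by_cases hw : w = []
  · subst hw
    have hn : desc [] (XA3_P P ε) = XA3_P P ε := rfl
    have hn' : ([] : List Bool).dropLast = [] := rfl
    rw [hn', hn]
    have hle : |max (len (XA3_P P ε).1) (len (XA3_P P ε).2.1) - len (XA3_P P ε).2.2| ≤ D := by
      cases ε
      · exact le_add_of_nonneg_left (abs_nonneg _)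
      · exact le_add_of_nonneg_right (abs_nonneg _)
    linarith
  · have hl := List.dropLast_append_getLast hw
    set w0 := w.dropLast with hw0
    set Q0 := desc w0 (XA3_P P ε) with hQ0
    have hAQ0 : Adm Q0 := by
      have := (hI ρ hA ε w0 τ).1
      rw [← hPdef, hPe] at this
      exact this
    have h0 := hC ε w0
    rw [← hQ0] at h0
    have hl1 := len_pos hAQ0.x2
    have hl2 := len_pos hAQ0.y2
    have hdesc : desc w (XA3_P P ε) = desc [w.getLast hw] Q0 := by
      conv_lhs => rw [← hl]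
      rw [XA3_desc_append]
    rw [hdesc]
    rw [abs_le] at h0
    cases hs : w.getLast hw
    · have hL : desc [false] Q0 = Rm Q0 := rfl
      have hL1 : (Rm Q0).1 = Q0.2.2 := rfl
      have hL2 : (Rm Q0).2.1 = Q0.2.1 := rfl
      rw [hL, hL1, hL2, abs_le]
      rcases max_cases (len Q0.2.2) (len Q0.2.1) with ⟨hm, hm'⟩ | ⟨hm, hm'⟩ <;> rw [hm] <;>
        constructor <;> linarith [h0.1, h0.2]
    · have hL : desc [true] Q0 = Lm Q0 := rfl
      have hL1 : (Lm Q0).1 = Q0.1 := rfl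
      have hL2 : (Lm Q0).2.1 = Q0.2.2 := rfl
      rw [hL, hL1, hL2, abs_le]
      rcases max_cases (len Q0.1) (len Q0.2.2) with ⟨hm, hm'⟩ | ⟨hm, hm'⟩ <;> rw [hm] <;>
        constructor <;> linarith [h0.1, h0.2]

end AM
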