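import Mathlib
import Pool.Agent.helper68.AM.Spec
import Pool.Agent.helper68.AM.Tree

/-!
Project sl: (AM), module AL: existence of the quadratic coefficient.
-/

set_option autoImplicit false

namespace AM

open Pool.Agent.helper72.Sq Finset

lemma AL_lin (l1 l2 R : ℝ) (h1 : 0 < l1) (h2 : 0 < l2) (hR : 0 ≤ R) :
    |((LinSet l1 l2 R).ncard : ℝ) - (R ^ 2 / (2 * l1 * l2) + R / (2 * l1) - R / (2 * l2))| ≤
      l2 / l1 + 1 + (R / l2 + 1) / 2 := by
  refine (lin_main l1 l2 R h1 h2 hR).trans ?_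
  have hs : |∑ q ∈ range (⌊R / l2⌋₊ + 1), (Int.fract (R / l1 - q * (l2 / l1)) - 1 / 2)| ≤
      ∑ q ∈ range (⌊R / l2⌋₊ + 1), (1 / 2 : ℝ) := by
    refine (Finset.abs_sum_le_sum_abs _ _).trans (Finset.sum_le_sum ?_)
    intro q _
    have a := Int.fract_nonneg (R / l1 - q * (l2 / l1))
    have b := (Int.fract_lt_one (R / l1 - q * (l2 / l1))).le
    rw [abs_le]
    constructor <;> linarith
  have hn : ((⌊R / l2⌋₊ : ℕ) : ℝ) ≤ R / l2 := Nat.floor_le (by positivity)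
  rw [Finset.sum_const, Finset.card_range, nsmul_eq_mul] at hs
  push_cast at hs
  linarith

lemma AL_node (c c' M r η l1 l2 X N0 N1 : ℝ) (hc : 0 < c) (hM : 1 ≤ M) (hr : 0 ≤ r)
    (hη0 : 0 ≤ η) (hη1 : η ≤ 1) (hrη : r * η ≤ 1) (h1 : c ≤ l1) (h2 : c ≤ l2) (h2' : l2 ≤ c' * M)
    (hN0 : |N0 - (r ^ 2 / (2 * l1 * l2) + r / (2 * l1) - r / (2 * l2))| ≤
      l2 / l1 + 1 + (r / l2 + 1) / 2)
    (hN1 : |N1 - ((r + η) ^ 2 / (2 * l1 * l2) + (r + η) / (2 * l1) - (r + η) / (2 * l2))| ≤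
      l2 / l1 + 1 + ((r + η) / l2 + 1) / 2)
    (hX0 : N0 ≤ X) (hX1 : X ≤ N1) :
    |(X - r / (2 * l1) + r / (2 * l2)) - r ^ 2 / (2 * l1 * l2)| ≤
      (c' / c + 3 / 2 + 3 / (2 * c ^ 2) + 1 / c) * (M + r) := by
  have hl1 : 0 < l1 := hc.trans_le h1
  have hl2 : 0 < l2 := hc.trans_le h2
  have hc' : 0 < c' * M := hl2.trans_le h2'
  have hc'0 : 0 < c' := by
    rcases pos_and_pos_or_neg_and_neg_of_mul_pos hc' with h | h
    · exact h.1
    · linarith
  have e1 : l2 / l1 ≤ c' / c * M := by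
    rw [div_mul_eq_mul_div]
    exact div_le_div₀ hc'.le h2' hc h1
  have e2 : r / l2 ≤ 1 / c * r := by
    rw [one_div, inv_mul_eq_div]
    exact div_le_div_of_nonneg_left hr hc h2
  have e3 : η / l2 ≤ 1 / c := div_le_div₀ (by norm_num) hη1 hc h2
  have e4 : η / (2 * l1) ≤ 1 / (2 * c) := div_le_div₀ (by norm_num) hη1 (by positivity) (by linarith)
  have e4' : 0 ≤ η / (2 * l2) := by positivity
  have e5 : (2 * (r * η) + η ^ 2) / (2 * l1 * l2) ≤ 3 / (2 * c ^ 2) := by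
    apply div_le_div₀ (by norm_num) _ (by positivity)
    · nlinarith
    · nlinarith
  have e6 : (r + η) / l2 = r / l2 + η / l2 := add_div _ _ _
  have e7 : (r + η) ^ 2 / (2 * l1 * l2) = r ^ 2 / (2 * l1 * l2) +
      (2 * (r * η) + η ^ 2) / (2 * l1 * l2) := by
    rw [← add_div]; ring
  have e8 : (r + η) / (2 * l1) = r / (2 * l1) + η / (2 * l1) := add_div _ _ _
  have e9 : (r + η) / (2 * l2) = r / (2 * l2) + η / (2 * l2) := add_div _ _ _
  have e10 : 1 / (2 * c) = 1 / c / 2 := by field_simp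
  rw [e7, e8, e9, e6] at hN1
  have k1 : 0 < 1 / c := by positivity
  have k2 : 0 < 3 / (2 * c ^ 2) := by positivity
  have k3 : 0 < c' / c := by positivity
  rw [abs_le] at hN0 hN1 ⊢
  obtain ⟨a1, _⟩ := hN0
  obtain ⟨_, a2⟩ := hN1
  have m1 : c' / c * M ≤ c' / c * (M + r) := by nlinarith
  have m2 : 3 / (2 * c ^ 2) ≤ 3 / (2 * c ^ 2) * (M + r) := by nlinarith
  have m3 : 1 / c * r + 1 / c ≤ 1 / c * (M + r) := by nlinarith
  have m4 : (3 : ℝ) / 2 ≤ 3 / 2 * (M + r) := by nlinarith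
  have m5 : 0 ≤ 1 / c * r := by positivity
  constructor
  · nlinarith
  · nlinarith

lemma AL_level (P : Tri) (C0 : ℕ) (h : Gr P) (hS : SWp P C0) : ∃ K : ℝ, 0 < K ∧
    ∀ j : ℕ, 1 ≤ j → ∀ r : ℝ, 0 ≤ r → r ≤ 2 ^ (5 * j) →
      |Ht P r - alM P (C0 * j) * r ^ 2| ≤
        ((C0 * j : ℕ) : ℝ) ^ 2 * (K * (((C0 * j : ℕ) : ℝ) + r)) := by
  obtain ⟨hC0, hS⟩ := hS
  have hPar := Par_of_Gr h
  have hroot := GN_rt h
  set c := min (ltau P.1) (ltau P.2.1) with hcdef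
  set c' := max (len P.1) (len P.2.1) with hcdef'
  have hc : 0 < c := hPar.c0
  have hcc : 0 < c' := hc.trans_le hPar.cc
  refine ⟨c' / c + 3 / 2 + 3 / (2 * c ^ 2) + 1 / c, by positivity, ?_⟩
  intro j hj r hr0 hr1
  set M := C0 * j with hM
  have hM1 : 1 ≤ M := by rw [hM]; exact Nat.mul_pos (by omega) (by omega)
  have hM1' : (1 : ℝ) ≤ (M : ℝ) := by exact_mod_cast hM1
  have e1 : alM P M * r ^ 2 =
      lsum M M (rt P) (fun y => r ^ 2 / (2 * y.l1 * y.l2)) := by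
    unfold alM
    rw [mul_comm, ← lsum_mul]
    apply lsum_congr
    intro y _
    ring
  have e2 : Ht P r - alM P M * r ^ 2 =
      lsum M M (rt P) (fun y => Ht y.t r + (-1) * (r ^ 2 / (2 * y.l1 * y.l2))) := by
    rw [lsum_add, lsum_mul, ← e1, lsum_Ht h]
    ring
  rw [e2]
  refine (lsum_abs _ _ _ _).trans ?_
  apply lsum_le_const h M hM1
  · positivity
  intro y hy
  have hG := GN_lvs M M (rt P) hroot y hy
  obtain ⟨b1, b2⟩ := lvs_le M M (rt P) (by rw [rt_m1]; exact hM1) (by rw [rt_m2]; exact hM1) y hy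
  have hl1 := hG.l1_ge' hc
  have hl2 := hG.l2_ge' hc
  have hl1p : 0 < y.l1 := hc.trans_le hl1
  have hl2p : 0 < y.l2 := hc.trans_le hl2
  have hl2' : y.l2 ≤ c' * M := by
    refine hG.l2_le.trans ?_
    have : (y.m2 : ℝ) ≤ M := by exact_mod_cast b2
    exact mul_le_mul_of_nonneg_left this hcc.le
  have hη0 : (0 : ℝ) ≤ 1 / 2 ^ (8 * j) := by positivity
  have hη1 : (1 : ℝ) / 2 ^ (8 * j) ≤ 1 := by
    rw [div_le_one (by positivity)]
    exact one_le_pow₀ (by norm_num)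
  have hrη : r * (1 / 2 ^ (8 * j)) ≤ 1 := by
    rw [mul_one_div, div_le_one (by positivity)]
    refine hr1.trans (pow_le_pow_right₀ (by norm_num) (by omega))
  have hN0 := AL_lin y.l1 y.l2 r hl1p hl2p hr0
  have hN1 := AL_lin y.l1 y.l2 (r + 1 / 2 ^ (8 * j)) hl1p hl2p (by linarith)
  have hX0 : ((LinSet y.l1 y.l2 r).ncard : ℝ) ≤ ((HS y.t r).ncard : ℝ) := by
    exact_mod_cast Set.ncard_le_ncard (LinSet_subset_HS hG.gr r) (HS_finite hG.gr r)
  have hX1 : ((HS y.t r).ncard : ℝ) ≤ ((LinSet y.l1 y.l2 (r + 1 / 2 ^ (8 * j))).ncard : ℝ) := by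
    exact_mod_cast Set.ncard_le_ncard (hS j hj y hy r hr0 hr1)
      (LinSet_finite _ _ _ hl1p hl2p)
  have key := AL_node c c' M r (1 / 2 ^ (8 * j)) y.l1 y.l2 _ _ _ hc hM1' hr0 hη0 hη1 hrη hl1 hl2
    hl2' hN0 hN1 hX0 hX1
  have e3 : Ht y.t r + (-1) * (r ^ 2 / (2 * y.l1 * y.l2)) =
      (((HS y.t r).ncard : ℝ) - r / (2 * y.l1) + r / (2 * y.l2)) - r ^ 2 / (2 * y.l1 * y.l2) := by
    unfold Ht H Nd.l1 Nd.l2
    ring
  rw [e3]
  exact key

lemma AL_cube (n : ℕ) : ((n : ℝ) + 2) ^ 3 ≤ 8 * 2 ^ (n + 1) := by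
  induction n with
  | zero => norm_num
  | succ n ih =>
    rcases Nat.lt_or_ge n 3 with h | h
    · interval_cases n <;> norm_num
    · have h3 : (3 : ℝ) ≤ n := by exact_mod_cast h
      push_cast
      rw [pow_succ (2 : ℝ) (n + 1)]
      have : ((n : ℝ) + 1 + 2) ^ 3 ≤ 2 * ((n : ℝ) + 2) ^ 3 := by
        nlinarith [mul_nonneg (sub_nonneg.2 h3) (sub_nonneg.2 h3),
          mul_nonneg (mul_nonneg (sub_nonneg.2 h3) (sub_nonneg.2 h3)) (sub_nonneg.2 h3)]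
      linarith

theorem AL : AL_stmt := by
  intro P C0 h hS
  have hC0 := hS.1
  obtain ⟨K, hK, hlev⟩ := AL_level P C0 h hS
  have hC0' : (1 : ℝ) ≤ (C0 : ℝ) := by exact_mod_cast hC0
  set a : ℕ → ℝ := fun n => alM P (C0 * (n + 1)) with ha
  set K' : ℝ := 32 * K * (C0 : ℝ) ^ 3 with hK'
  have hK'0 : 0 < K' := by rw [hK']; positivity
  have hstep : ∀ n, dist (a n) (a (n + 1)) ≤ K' * (1 / 16 : ℝ) ^ n := by
    intro n
    set r : ℝ := 2 ^ (5 * (n + 1)) with hr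
    have hr0 : 0 < r := by rw [hr]; positivity
    have hr1 : 1 ≤ r := by rw [hr]; exact one_le_pow₀ (by norm_num)
    have h1 := hlev (n + 1) (by omega) r hr0.le le_rfl
    have h2 := hlev (n + 1 + 1) (by omega) r hr0.le
      (by rw [hr]; exact pow_le_pow_right₀ (by norm_num) (by omega))
    have m0 : ((C0 * (n + 1) : ℕ) : ℝ) = C0 * ((n : ℝ) + 1) := by push_cast; ring
    have m1 : ((C0 * (n + 1 + 1) : ℕ) : ℝ) = C0 * ((n : ℝ) + 2) := by push_cast; ring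
    rw [m0] at h1
    rw [m1] at h2
    set M : ℝ := C0 * ((n : ℝ) + 2) with hM
    have hn0 : (0 : ℝ) ≤ n := Nat.cast_nonneg n
    have hM0 : 1 ≤ M := by rw [hM]; nlinarith
    have hMM : C0 * ((n : ℝ) + 1) ≤ M := by rw [hM]; nlinarith
    have hM00 : 0 ≤ C0 * ((n : ℝ) + 1) := by positivity
    have h1' : |Ht P r - alM P (C0 * (n + 1)) * r ^ 2| ≤ M ^ 2 * (K * (M + r)) := by
      refine h1.trans ?_
      gcongr
    have e : |a n - a (n + 1)| * r ^ 2 =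
        |(Ht P r - alM P (C0 * (n + 1 + 1)) * r ^ 2) - (Ht P r - alM P (C0 * (n + 1)) * r ^ 2)| := by
      rw [← abs_of_nonneg (show (0 : ℝ) ≤ r ^ 2 by positivity), ← abs_mul,
        abs_of_nonneg (show (0 : ℝ) ≤ r ^ 2 by positivity)]
      congr 1
      simp only [ha]
      ring
    have h3 : |a n - a (n + 1)| * r ^ 2 ≤ 2 * (M ^ 2 * (K * (M + r))) := by
      rw [e]
      exact (abs_sub _ _).trans (by linarith)
    have h4 : M ^ 2 * (K * (M + r)) ≤ 2 * K * M ^ 3 * r := by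
      have : M + r ≤ 2 * (M * r) := by nlinarith
      calc M ^ 2 * (K * (M + r)) ≤ M ^ 2 * (K * (2 * (M * r))) := by gcongr
        _ = 2 * K * M ^ 3 * r := by ring
    have h5 : |a n - a (n + 1)| * r ≤ 4 * K * M ^ 3 := by
      have : |a n - a (n + 1)| * r * r ≤ 4 * K * M ^ 3 * r := by
        have : |a n - a (n + 1)| * r ^ 2 = |a n - a (n + 1)| * r * r := by ring
        rw [← this]
        linarith
      exact le_of_mul_le_mul_right this hr0
    have h6 : M ^ 3 ≤ (C0 : ℝ) ^ 3 * (8 * 2 ^ (n + 1)) := by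
      rw [hM, mul_pow]
      exact mul_le_mul_of_nonneg_left (AL_cube n) (by positivity)
    have h7 : r = 2 ^ (n + 1) * 16 ^ (n + 1) := by
      rw [hr, pow_mul, ← mul_pow]; norm_num
    rw [Real.dist_eq]
    have h8 : |a n - a (n + 1)| * r ≤ K' * 2 ^ (n + 1) := by
      refine h5.trans ?_
      rw [hK']
      calc 4 * K * M ^ 3 ≤ 4 * K * ((C0 : ℝ) ^ 3 * (8 * 2 ^ (n + 1))) := by gcongr
        _ = _ := by ring
    rw [h7] at h8
    have h9 : |a n - a (n + 1)| * 16 ^ (n + 1) ≤ K' := by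
      have p2 : (0 : ℝ) < 2 ^ (n + 1) := by positivity
      have : |a n - a (n + 1)| * 16 ^ (n + 1) * 2 ^ (n + 1) ≤ K' * 2 ^ (n + 1) := by
        calc |a n - a (n + 1)| * 16 ^ (n + 1) * 2 ^ (n + 1)
            = |a n - a (n + 1)| * (2 ^ (n + 1) * 16 ^ (n + 1)) := by ring
          _ ≤ _ := h8
      exact le_of_mul_le_mul_right this p2
    rw [one_div, inv_pow, ← div_eq_mul_inv, le_div_iff₀ (by positivity)]
    refine le_trans ?_ h9
    apply mul_le_mul_of_nonneg_left _ (abs_nonneg _)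
    exact pow_le_pow_right₀ (by norm_num) (by omega)
  have hcau := cauchySeq_of_le_geometric (1 / 16 : ℝ) K' (by norm_num) hstep
  obtain ⟨A, hA⟩ := cauchySeq_tendsto_of_complete hcau
  have hdist := dist_le_of_le_geometric_of_tendsto (1 / 16 : ℝ) K' (by norm_num) hstep hA
  refine ⟨A, 32 * K', by positivity, ?_⟩
  intro j hj
  obtain ⟨n, rfl⟩ : ∃ n, j = n + 1 := ⟨j - 1, by omega⟩
  have h1 := hdist n
  rw [Real.dist_eq] at h1
  refine h1.trans ?_
  rw [div_le_div_iff₀ (by norm_num) (by positivity)]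
  have e1 : (1 / 16 : ℝ) ^ n * 2 ^ (4 * (n + 1)) = 16 := by
    rw [pow_mul, pow_succ]
    norm_num
    rw [← mul_assoc, ← mul_pow]
    norm_num
  calc K' * (1 / 16 : ℝ) ^ n * 2 ^ (4 * (n + 1)) = K' * ((1 / 16 : ℝ) ^ n * 2 ^ (4 * (n + 1))) := by
        ring
    _ = K' * 16 := by rw [e1]
    _ ≤ 32 * K' * (1 - 1 / 16) := by nlinarith

end AM
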